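import Pool.Agent.V11331.PM.Proof

/-!
# No factor of i.i.d. perfect matching of the 3-regular tree has finite expected coding volume

Resample the label of one vertex `u`. The expected number of vertices at which the matching changes
is at most the expected coding volume, so almost surely only finitely many edges change. The
symmetric difference of two perfect matchings of a tree is a union of bi-infinite paths, so nothing
changes. By the zero-one law the partner of the root is then a constant, which contradicts the
symmetry between the neighbours of the root.
-/

set_option autoImplicit false

open MeasureTheory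
open scoped ENNReal

namespace Pool.Agent.Results.MP_b3cd0c_pr.NoFiniteVolume

open Pool.Agent.H751R3 Pool.Agent.V11331.PM

/-- `T3` is the 3-regular tree, and there is no factor of i.i.d. `Φ` on it whose output is almost
surely a perfect matching and whose expected coding volume `E |B(o, R)|` is finite. -/
theorem result : T3.IsTree ∧ (∀ v, (T3.neighborSet v).ncard = 3) ∧
    ¬ ∃ Φ : Lab → Set (Sym2 W), IsFactor Φ ∧ (∀ᵐ ω ∂P, IsPM (Φ ω)) ∧
      ∫⁻ ω, ballCard (codingRadius Φ ω) ∂P < ∞ :=
  ⟨T3_isTree, T3_degree, no_factor⟩

end Pool.Agent.Results.MP_b3cd0c_pr.NoFiniteVolume
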